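import Pool.Agent.Helper13MD.Part
import Pool.Agent.Helper13BB.Main
import Pool.Agent.TH133.Murre

/-!
# Chow-Kunneth decompositions and the primitive parts
-/

open CategoryTheory AlgebraicGeometry

universe u v w

namespace Pool.Agent.Helper13MD

open Pool.Agent.H914 Pool.Agent.H914.VarClass Pool.Agent.H914.VarClass.Obj Pool.Agent.W492.BB
  Pool.Agent.W550.Corr Pool.Agent.TH133 Pool.Agent.Y148.BB Pool.Agent.Helper13BB

set_option linter.unusedSectionVars false
set_option linter.unusedVariables false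

variable {k : Type u} [Field k] {𝒱 : VarClass k}

variable {C : TheoryData.{u, v, 0} 𝒱 ℚ} [hC : IsChowProj C] {K : Type w} [Field K]
  {H : WeilTheoryData.{u, v, w} C K} [hH : IsWeilProj H] {X Y Z W P P' S T T' R : 𝒱.Obj}
  {Q : ∀ S : 𝒱.Obj, C.A (S.prod S) → Prop}

/-- The induction principle for homologically trivial classes, with the parts contributing to the
cohomology in the degrees at most `W` only. -/
def Bdd (H : WeilTheoryData.{u, v, w} C K) (Q : ∀ S : 𝒱.Obj, C.A (S.prod S) → Prop) (D : ℕ∞)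
    (X : 𝒱.Obj) (W : ℕ) (c : C.A (X.prod X)) : Prop :=
  ∀ (j : ℕ) (z : C.A X), C.Deg j z → H.cl z = 0 → ∀ M : Submodule ℚ (C.A X),
    (∀ (n : ℕ) (P : 𝒱.Obj) (p : C.A (P.prod P)) (r : ℕ) (A : C.A (X.prod P))
      (B : C.A (P.prod X)), IsPart Q n P p → (n : ℕ∞) ≤ D → r ≤ j → n + 2 * r ≤ W →
      C.Deg (X.dim - r) A → C.Deg (n + r) B → C.act B (C.act p (C.act A z)) ∈ M) → C.act c z ∈ M

include hC hH

lemma exists_bdd {D : ℕ∞} (h : HasDec Q D X) : ∃ W : ℕ, Bdd H Q D X W (dg C X) := by
  have h1 : ∀ c ∈ Submodule.span ℚ (decSet Q D X), ∃ W : ℕ, Bdd H Q D X W c := by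
    intro c hc
    induction hc using Submodule.span_induction with
    | mem c hc =>
      rcases hc with ⟨n, R, p, r, A, B, hR, hn, hA, hB, rfl⟩ | ⟨r, a, b, ha, hb, rfl⟩
      · refine ⟨n + 2 * r, fun j z hz hcl M hM => ?_⟩
        rw [C.act_comp, C.act_comp]
        by_cases hr : r ≤ j
        · exact hM n R p r A B hR hn hr le_rfl hA hB
        · have e1 := act_mem' C (e := -(r : ℤ)) (Γ := A) (gr_congr (C := C) (by ring) hA) hz
          rw [C.gr_neg R _ (by omega)] at e1
          rw [(Submodule.mem_bot _).1 e1, TheoryData.act_map_zero, TheoryData.act_map_zero]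
          exact Submodule.zero_mem _
      · refine ⟨0, fun j z hz hcl M hM => ?_⟩
        have e1 : C.act (C.ext a b) z = 0 := by
          have e2 : a * z ∈ C.gr X ((X.dim : ℤ) - r + j) := C.mul_mem ha hz
          by_cases hr : (X.dim : ℤ) - r + j = X.dim
          · rw [act_ext' (q := 0), zero_smul]
            apply hasDegree_zero_of_cl H
            · rw [hr] at e2
              exact e2
            · rw [map_mul, hcl, mul_zero]
          · exact act_ext_zero_of_lt e2 hr
        rw [e1]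
        exact Submodule.zero_mem _
    | zero =>
      refine ⟨0, fun j z hz hcl M hM => ?_⟩
      rw [TheoryData.act_zero]
      exact Submodule.zero_mem _
    | add x y _ _ hx hy =>
      obtain ⟨W1, hx⟩ := hx
      obtain ⟨W2, hy⟩ := hy
      refine ⟨max W1 W2, fun j z hz hcl M hM => ?_⟩
      rw [TheoryData.act_add]
      refine Submodule.add_mem _ (hx j z hz hcl M fun n P p r A B h1 h2 h3 h4 => ?_)
        (hy j z hz hcl M fun n P p r A B h1 h2 h3 h4 => ?_)
      · exact hM n P p r A B h1 h2 h3 (by omega)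
      · exact hM n P p r A B h1 h2 h3 (by omega)
    | smul c x _ hx =>
      obtain ⟨W1, hx⟩ := hx
      refine ⟨W1, fun j z hz hcl M hM => ?_⟩
      have e1 : C.act (c • x) z = c • C.act x z := by
        rw [← actB_apply, map_smul, LinearMap.smul_apply]
        rfl
      rw [e1]
      exact Submodule.smul_mem _ _ (hx j z hz hcl M hM)
  exact h1 _ h

/-- A correspondence `γ` from a part to a part through a Chow-Kunneth component of `X`. -/
lemma through_zero (hQ : ∀ S q, Q S q → IsTranscendental H S q) {D : ℕ∞}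
    (hV : ∀ c : ℕ, (c : ℕ∞) ≤ D → ∀ (m : ℕ) (R : 𝒱.Obj) (r : C.A (R.prod R)),
      IsPart Q m R r → 2 * c ≤ m → HVan H c R r)
    {π : ℕ → C.A (X.prod X)} (hπ : IsCK H X π) {n n' m : ℕ} {e r : ℤ} {p : C.A (P.prod P)}
    {p' : C.A (P'.prod P')} {B : C.A (P.prod X)} {A : C.A (X.prod P')}
    (hp : IsPart Q n P p) (hp' : IsPart Q n' P' p') (hn : (n : ℕ∞) ≤ D) (hn' : (n' : ℕ∞) ≤ D)
    (hB : B ∈ C.gr (P.prod X) (n + e)) (hA : A ∈ C.gr (X.prod P') (X.dim - r))
    (hw : n + 2 * e ≤ n' + 2 * r) (hm : n + 2 * e = n' + 2 * r → n + 2 * e ≠ m) (y : C.A P)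
    (hy : C.act p y = y) :
    C.act p' (C.act A (C.act (π m) (C.act B y))) = 0 := by
  have hP := prim_part hQ hp
  have hdim := hP.dim_eq
  have hγ : C.comp B (C.comp (π m) A) ∈ C.gr (P.prod P') (n + e - r) := by
    refine comp_memZ (H := H) hB (comp_memZ (H := H) (hπ.deg m) hA rfl) ?_
    ring
  have h1 : C.act p' (C.act A (C.act (π m) (C.act B y))) =
      C.act (C.comp (C.comp p (C.comp B (C.comp (π m) A))) p') y := by
    rw [C.act_comp, C.act_comp, C.act_comp, C.act_comp, hy]
  rw [h1, corr_zero hQ hV hp hp' hn hn' hγ, TheoryData.act_zero]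
  rcases lt_or_eq_of_le hw with h2 | h2
  · left
    linarith
  · right
    refine ⟨by linarith, ?_⟩
    apply hom_zero_of_act H
    have h3 : H.actL (H.cl (C.comp (C.comp p (C.comp B (C.comp (π m) A))) p')) = 0 := by
      apply ext_gr H
      intro l b hb
      rw [LinearMap.zero_apply]
      change H.act (H.cl _) b = 0
      rw [actH_comp, actH_comp, actH_comp, actH_comp]
      by_cases hl : l = n
      · subst hl
        have e1 := actH_mem H (e := 0) (Γ := p) (by rw [add_zero]; exact hP.deg) hb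
        have e2 := actH_mem H (e := e) (Γ := B) (gr_congr (C := C) (by rw [hdim]) hB) e1
        rw [hπ.act_ne m _ _ (by rw [mul_zero, add_zero]; exact hm h2) e2, TheoryData.act_map_zero,
          TheoryData.act_map_zero]
      · rw [hP.act_ne l b hl hb, TheoryData.act_map_zero, TheoryData.act_map_zero,
          TheoryData.act_map_zero, TheoryData.act_map_zero]
    intro b
    exact LinearMap.congr_fun h3 b

/-- The classes in `π_m CH^j(X)` are not seen by parts of weight larger than `m`. -/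
lemma tests_zero (hQ : ∀ S q, Q S q → IsTranscendental H S q) {D : ℕ∞}
    (hV : ∀ c : ℕ, (c : ℕ∞) ≤ D → ∀ (m : ℕ) (R : 𝒱.Obj) (r : C.A (R.prod R)),
      IsPart Q m R r → 2 * c ≤ m → HVan H c R r)
    (hX : HasDec Q D X) {π : ℕ → C.A (X.prod X)} (hπ : IsCK H X π) {m j : ℕ} {z : C.A X}
    (hz : C.Deg j z) (hcl : H.cl z = 0) (hzm : C.act (π m) z = z)
    {n : ℕ} {p : C.A (P.prod P)} (hp : IsPart Q n P p) (hn : (n : ℕ∞) ≤ D) {r : ℤ}
    {A : C.A (X.prod P)} (hA : A ∈ C.gr (X.prod P) (X.dim - r)) (hm : (m : ℤ) < n + 2 * r) :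
    C.act p (C.act A z) = 0 := by
  obtain ⟨W, hW⟩ := exists_bdd (H := H) hX
  have key : ∀ l : ℕ, ∀ (n : ℕ) (P : 𝒱.Obj) (p : C.A (P.prod P)) (r : ℤ) (A : C.A (X.prod P)),
      IsPart Q n P p → (n : ℕ∞) ≤ D → A ∈ C.gr (X.prod P) (X.dim - r) → (m : ℤ) < n + 2 * r →
      (W : ℤ) < n + 2 * r + l → C.act p (C.act A z) = 0 := by
    intro l
    induction l with
    | zero =>
      intro n P p r A hp hn hA hm hW'
      rw [← hzm]
      have h1 := hW j z hz hcl (LinearMap.ker (C.actL (C.comp (C.comp (π m) A) p)))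
        fun n' P' p' r' A' B' hp' hn' hr' hw' hA' hB' => by
          rw [LinearMap.mem_ker, TheoryData.actL_apply, C.act_comp, C.act_comp]
          refine through_zero hQ hV hπ hp' hp hn' hn hB' hA (by push_cast at hW' ⊢; omega)
            (by omega) _ ?_
          rw [← C.act_comp, (prim_part hQ hp').idem]
      rw [act_dg, LinearMap.mem_ker, TheoryData.actL_apply, C.act_comp, C.act_comp] at h1
      exact h1
    | succ l ih =>
      intro n P p r A hp hn hA hm hW'
      rw [← hzm]
      have h1 := hW j z hz hcl (LinearMap.ker (C.actL (C.comp (C.comp (π m) A) p)))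
        fun n' P' p' r' A' B' hp' hn' hr' hw' hA' hB' => by
          rw [LinearMap.mem_ker, TheoryData.actL_apply, C.act_comp, C.act_comp]
          by_cases h2 : (n' : ℤ) + 2 * r' ≤ n + 2 * r
          · refine through_zero hQ hV hπ hp' hp hn' hn hB' hA h2
              (by omega) _ ?_
            rw [← C.act_comp, (prim_part hQ hp').idem]
          · rw [ih n' P' p' r' A' hp' hn' hA' (by omega) (by push_cast at hW'; omega)]
            simp only [TheoryData.act_map_zero]
      rw [act_dg, LinearMap.mem_ker, TheoryData.actL_apply, C.act_comp, C.act_comp] at h1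
      exact h1
  refine key (W + 1) n P p r A hp hn hA hm ?_
  push_cast
  omega

/-- The components of `X` of weight larger than `m` do not see parts of weight smaller than `m`. -/
lemma image_zero (hQ : ∀ S q, Q S q → IsTranscendental H S q) {D : ℕ∞}
    (hV : ∀ c : ℕ, (c : ℕ∞) ≤ D → ∀ (m : ℕ) (R : 𝒱.Obj) (r : C.A (R.prod R)),
      IsPart Q m R r → 2 * c ≤ m → HVan H c R r)
    (hX : HasDec Q D X) {π : ℕ → C.A (X.prod X)} (hπ : IsCK H X π) {m : ℕ} (l : ℕ) :
    ∀ (n : ℕ) (P : 𝒱.Obj) (p : C.A (P.prod P)) (i j : ℕ) (B : C.A (P.prod X)) (y : C.A P),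
      IsPart Q n P p → (n : ℕ∞) ≤ D → C.Deg i y → H.cl y = 0 → C.act p y = y →
      B ∈ C.gr (P.prod X) (n + (j - i)) → (n : ℤ) + 2 * (j - i) ≤ l →
      (n : ℤ) + 2 * (j - i) < m → C.act (π m) (C.act B y) = 0 := by
  induction l with
  | zero =>
    intro n P p i j B y hp hn hy hcl hpy hB hw hm
    have hP := prim_part hQ hp
    set x := C.act (π m) (C.act B y) with hx
    have hBy : C.Deg j (C.act B y) := act_memZ (H := H) hB hy (by rw [hP.dim_eq]; ring)
    have hxd : C.Deg j x := act00 (H := H) (hπ.deg m) hBy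
    have hxcl : H.cl x = 0 := cl_act_zero (cl_act_zero hcl)
    have hxm : C.act (π m) x = x := by rw [hx, ← C.act_comp, hπ.idem]
    have h1 : x ∈ LinearMap.ker (C.actL (π m)) := by
      refine hX.induct hQ hxd hxcl _ fun n' P' p' r' A' B' hp' hn' hr' hA' hB' => ?_
      have h0 := one_le_part hp'
      rw [LinearMap.mem_ker, TheoryData.actL_apply, hx,
        through_zero hQ hV hπ hp hp' hn hn' hB hA' (by push_cast at hw; omega) (by omega) y hpy]
      simp only [TheoryData.act_map_zero]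
    rw [LinearMap.mem_ker, TheoryData.actL_apply, hxm] at h1
    exact h1
  | succ l ih =>
    intro n P p i j B y hp hn hy hcl hpy hB hw hm
    have hP := prim_part hQ hp
    set x := C.act (π m) (C.act B y) with hx
    have hBy : C.Deg j (C.act B y) := act_memZ (H := H) hB hy (by rw [hP.dim_eq]; ring)
    have hxd : C.Deg j x := act00 (H := H) (hπ.deg m) hBy
    have hxcl : H.cl x = 0 := cl_act_zero (cl_act_zero hcl)
    have hxm : C.act (π m) x = x := by rw [hx, ← C.act_comp, hπ.idem]
    have h1 : x ∈ LinearMap.ker (C.actL (π m)) := by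
      refine hX.induct hQ hxd hxcl _ fun n' P' p' r' A' B' hp' hn' hr' hA' hB' => ?_
      have hP' := prim_part hQ hp'
      rw [LinearMap.mem_ker, TheoryData.actL_apply]
      by_cases h2 : (n : ℤ) + 2 * (j - i) ≤ n' + 2 * r'
      · rw [hx, through_zero hQ hV hπ hp hp' hn hn' hB hA' h2 (by omega) y hpy]
        simp only [TheoryData.act_map_zero]
      · have h3 : C.Deg ((j - r' : ℕ) : ℤ) (C.act p' (C.act A' x)) := by
          refine act00 (H := H) hP'.deg ?_
          refine act_memZ (H := H) hA' hxd ?_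
          rw [Nat.cast_sub hr']
          ring
        refine ih n' P' p' (j - r') j B' _ hp' hn' h3 (cl_act_zero (cl_act_zero hxcl)) ?_ ?_ ?_ ?_
        · rw [← C.act_comp, hP'.idem]
        · refine gr_congr (C := C) ?_ hB'
          rw [Nat.cast_sub hr']
          ring
        · rw [Nat.cast_sub hr']
          push_cast at hw
          omega
        · rw [Nat.cast_sub hr']
          omega
    rw [LinearMap.mem_ker, TheoryData.actL_apply, hxm] at h1
    exact h1

/-- **Murre's conjecture (D).** -/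
theorem murreD_of (hQ : ∀ S q, Q S q → IsTranscendental H S q) {D : ℕ∞}
    (hV : ∀ c : ℕ, (c : ℕ∞) ≤ D → ∀ (m : ℕ) (R : 𝒱.Obj) (r : C.A (R.prod R)),
      IsPart Q m R r → 2 * c ≤ m → HVan H c R r)
    (hX : HasDec Q D X) {π : ℕ → C.A (X.prod X)} (hπ : IsCK H X π) {i m : ℕ} {z : C.A X}
    (hz : C.Deg i z) (hcl : H.cl z = 0) (hm : 2 * i ≤ m) : C.act (π m) z = 0 := by
  have h1 : z ∈ LinearMap.ker (C.actL (π m)) := by
    refine hX.induct hQ hz hcl _ fun n' P' p' r' A' B' hp' hn' hr' hA' hB' => ?_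
    have hP' := prim_part hQ hp'
    rw [LinearMap.mem_ker, TheoryData.actL_apply]
    have h3 : C.Deg ((i - r' : ℕ) : ℤ) (C.act A' z) := by
      refine act_memZ (H := H) hA' hz ?_
      rw [Nat.cast_sub hr']
      ring
    by_cases h2 : 2 * (i - r') ≤ n'
    · have h4 := (hV (i - r') (le_trans (by exact_mod_cast (by omega : i - r' ≤ n')) hn') n' P' p'
        hp' h2).act hP' h3 (cl_act_zero hcl)
      rw [h4]
      simp only [TheoryData.act_map_zero]
    · refine image_zero hQ hV hX hπ (n' + 2 * r') n' P' p' (i - r') i B' _ hp' hn'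
        (act00 (H := H) hP'.deg h3) (cl_act_zero (cl_act_zero hcl)) ?_ ?_ ?_ ?_
      · rw [← C.act_comp, hP'.idem]
      · refine gr_congr (C := C) ?_ hB'
        rw [Nat.cast_sub hr']
        ring
      · rw [Nat.cast_sub hr']
        push_cast
        omega
      · rw [Nat.cast_sub hr']
        omega
  rw [LinearMap.mem_ker, TheoryData.actL_apply] at h1
  exact h1

/-- The components of weight larger than `2 i` act as zero. -/
theorem murreB0_of (hQ : ∀ S q, Q S q → IsTranscendental H S q) {D : ℕ∞}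
    (hV : ∀ c : ℕ, (c : ℕ∞) ≤ D → ∀ (m : ℕ) (R : 𝒱.Obj) (r : C.A (R.prod R)),
      IsPart Q m R r → 2 * c ≤ m → HVan H c R r)
    (hX : HasDec Q D X) {π : ℕ → C.A (X.prod X)} (hπ : IsCK H X π) {i m : ℕ} {z : C.A X}
    (hz : C.Deg i z) (hm : 2 * i < m) : C.act (π m) z = 0 := by
  have h1 : H.cl (C.act (π m) z) = 0 := by
    rw [cl_act H]
    exact hπ.act_ne m _ _ (by omega) (H.cl_mem hz)
  have h2 := murreD_of hQ hV hX hπ (act00 (H := H) (hπ.deg m) hz) h1 hm.le
  rwa [← C.act_comp, hπ.idem] at h2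

/-- The components of weight less than `i` act as zero. -/
theorem murreB1_of (hQ : ∀ S q, Q S q → IsTranscendental H S q) {D : ℕ∞}
    (hV : ∀ c : ℕ, (c : ℕ∞) ≤ D → ∀ (m : ℕ) (R : 𝒱.Obj) (r : C.A (R.prod R)),
      IsPart Q m R r → 2 * c ≤ m → HVan H c R r)
    (hX : HasDec Q D X) {π : ℕ → C.A (X.prod X)} (hπ : IsCK H X π) {i m : ℕ} {z : C.A X}
    (hz : C.Deg i z) (hm : m < i) : C.act (π m) z = 0 := by
  set x := C.act (π m) z with hx
  have hcl : H.cl x = 0 := by
    rw [hx, cl_act H]
    exact hπ.act_ne m _ _ (by omega) (H.cl_mem hz)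
  have hxd : C.Deg i x := act00 (H := H) (hπ.deg m) hz
  have hxm : C.act (π m) x = x := by rw [hx, ← C.act_comp, hπ.idem]
  rw [← Submodule.mem_bot ℚ]
  refine hX.induct hQ hxd hcl _ fun n' P' p' r' A' B' hp' hn' hr' hA' hB' => ?_
  have hP' := prim_part hQ hp'
  rw [Submodule.mem_bot]
  have h5 : C.act p' (C.act A' x) = 0 := by
    by_cases h2 : m < n' + 2 * r'
    · exact tests_zero hQ hV hX hπ hxd hcl hxm hp' hn' hA' (by omega)
    · have h3 : C.act p' (C.act A' x) ∈ C.gr P' ((i : ℤ) - r') :=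
        act00 (H := H) hP'.deg (act_memZ (H := H) hA' hxd (by ring))
      exact hC.gr_top P' _ _ h3 (by rw [hP'.dim_eq]; omega)
  rw [h5, TheoryData.act_map_zero]

/-- **Independence of the Chow-Kunneth decomposition.** -/
theorem murreC_of (hQ : ∀ S q, Q S q → IsTranscendental H S q) {D : ℕ∞}
    (hV : ∀ c : ℕ, (c : ℕ∞) ≤ D → ∀ (m : ℕ) (R : 𝒱.Obj) (r : C.A (R.prod R)),
      IsPart Q m R r → 2 * c ≤ m → HVan H c R r)
    (hX : HasDec Q D X) {π π' : ℕ → C.A (X.prod X)} (hπ : IsCK H X π) (hπ' : IsCK H X π')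
    {i n : ℕ} {z : C.A X} (h : z ∈ ckFil C π i n) : z ∈ ckFil C π' i n := by
  rw [hπ.mem_ckFil] at h
  rw [hπ'.mem_ckFil]
  refine ⟨h.1, fun m hm => ?_⟩
  by_cases hn : n = 0
  · subst hn
    exact murreB0_of hQ hV hX hπ' h.1 (by omega)
  have h1 : z = ∑ j ∈ Finset.range (2 * X.dim + 1), C.act (π j) z := by
    rw [← act_sum, hπ.sum, act_dg]
  rw [h1, act_map_sum]
  apply Finset.sum_eq_zero
  intro l _
  by_cases hl : 2 * i + 1 - n ≤ l
  · rw [h.2 l hl, TheoryData.act_map_zero]
  set x := C.act (π l) z with hx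
  have hcl : H.cl x = 0 := by
    rw [hx, cl_act H]
    exact hπ.act_ne l _ _ (by omega) (H.cl_mem h.1)
  have hxd : C.Deg i x := act00 (H := H) (hπ.deg l) h.1
  have hxm : C.act (π l) x = x := by rw [hx, ← C.act_comp, hπ.idem]
  have h2 : x ∈ LinearMap.ker (C.actL (π' m)) := by
    refine hX.induct hQ hxd hcl _ fun n' P' p' r' A' B' hp' hn' hr' hA' hB' => ?_
    have hP' := prim_part hQ hp'
    rw [LinearMap.mem_ker, TheoryData.actL_apply]
    by_cases h3 : l < n' + 2 * r'
    · rw [tests_zero hQ hV hX hπ hxd hcl hxm hp' hn' hA' (by omega)]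
      simp only [TheoryData.act_map_zero]
    · have h4 : C.Deg ((i - r' : ℕ) : ℤ) (C.act A' x) := by
        refine act_memZ (H := H) hA' hxd ?_
        rw [Nat.cast_sub hr']
        ring
      refine image_zero hQ hV hX hπ' (n' + 2 * r') n' P' p' (i - r') i B' _ hp' hn'
        (act00 (H := H) hP'.deg h4) (cl_act_zero (cl_act_zero hcl)) ?_ ?_ ?_ ?_
      · rw [← C.act_comp, hP'.idem]
      · refine gr_congr (C := C) ?_ hB'
        rw [Nat.cast_sub hr']
        ring
      · rw [Nat.cast_sub hr']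
        push_cast
        omega
      · rw [Nat.cast_sub hr']
        omega
  rw [LinearMap.mem_ker, TheoryData.actL_apply] at h2
  exact h2

/-- A product of transcendental motives of surfaces has a Chow-Kunneth decomposition such that the
projector is a direct summand of the component in the middle degree. -/
lemma exists_ck (hQ : ∀ S q, Q S q → IsTranscendental H S q) {r : ℕ} {p : C.A (P.prod P)}
    (h : TransProd Q r P p) : ∃ ρ : ℕ → C.A (P.prod P), IsCK H P ρ ∧
      ∀ i, C.comp (ρ i) p = if i = 2 * r then p else 0 := by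
  induction h with
  | one S q h =>
    obtain ⟨x, π, -, -, -, hπ, -, -, hπq, -⟩ := (hQ S q h).exists_ck
    refine ⟨π, hπ, fun i => ?_⟩
    split_ifs with hi
    · subst hi
      exact hπq
    · rw [← hπq, ← comp_assoc, hπ.orth i 2 hi, zero_comp]
  | prod r P S p q hp h ih =>
    obtain ⟨ρ, hρ, hρp⟩ := ih
    obtain ⟨x, π, -, -, -, hπ, -, -, hπq, -⟩ := (hQ S q h).exists_ck
    have hπq' : ∀ i, C.comp (π i) q = if i = 2 then q else 0 := by
      intro i
      split_ifs with hi
      · subst hi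
        exact hπq
      · rw [← hπq, ← comp_assoc, hπ.orth i 2 hi, zero_comp]
    refine ⟨prodCK C ρ π, hρ.prod hπ, fun i => ?_⟩
    unfold prodCK
    rw [sum_comp]
    simp_rw [tens_comp'', hρp, hπq']
    split_ifs with hi
    · rw [Finset.sum_eq_single (2 * r)]
      · rw [if_pos rfl, if_pos (by omega)]
      · intro l _ hl
        rw [if_neg hl, tens_zero_left]
      · intro h2
        rw [Finset.mem_range] at h2
        omega
    · apply Finset.sum_eq_zero
      intro l hl
      rw [Finset.mem_range] at hl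
      by_cases hl2 : l = 2 * r
      · rw [if_neg (by omega : ¬ i - l = 2), tens_zero_right]
      · rw [if_neg hl2, tens_zero_left]

/-- **Necessity.** -/
theorem homInj_of_murreD (hQ : ∀ S q, Q S q → IsTranscendental H S q) {j : ℕ}
    {p : C.A (P.prod P)} (hp : TransProd Q j P p) (h : MurreD H P) : HVan H j P p := by
  intro z hz hcl hpz
  obtain ⟨ρ, hρ, hρp⟩ := exists_ck hQ hp
  have h1 := (h ρ hρ j z).2 ⟨hz, hcl⟩
  rw [hρ.mem_ckFil] at h1
  have h2 := h1.2 (2 * j) (by omega)
  have h3 := hρp (2 * j)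
  rw [if_pos rfl] at h3
  rw [← hpz, ← h3, C.act_comp, h2, TheoryData.act_map_zero]

end Pool.Agent.Helper13MD
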