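import Pool.Agent.Helper13MD.Stm
import Pool.Agent.Helper13MD.CK
import Pool.Agent.Helper13BB.Conv

/-!
# Comparison of the definitions used in the statement with those used in the proof
-/

open CategoryTheory AlgebraicGeometry

universe u v w

namespace Pool.Agent.Helper13MD.Conv

open Pool.Agent.H914 Pool.Agent.H914.VarClass Pool.Agent.H914.VarClass.Obj Pool.Agent.W492.BB
  Pool.Agent.W550.Corr Pool.Agent.TH133 Pool.Agent.Helper13BB

variable {k : Type u} [Field k] {𝒱 : VarClass k}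

variable {C : TheoryData.{u, v, 0} 𝒱 ℚ} {K : Type w} [Field K]
  {H : WeilTheoryData.{u, v, w} C K} {X Y Z W P S T : 𝒱.Obj}

lemma ck_iff {π : ℕ → C.A (X.prod X)} : Helper13BB.Stm.IsChowKunneth H X π ↔ IsCK H X π := by
  constructor
  · exact Helper13BB.Conv.ck
  · intro h
    exact ⟨h.deg, h.out, h.idem, h.orth, h.sum, h.act_self, fun i m hm a ha => h.act_ne i m a hm ha⟩

lemma step_iff {π : ℕ → C.A (X.prod X)} {i n : ℕ} {x : C.A X} :
    Stm.InStep C π i n x ↔ x ∈ ckFil C π i n := by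
  constructor
  · rintro ⟨y, hy, rfl⟩
    exact ⟨y, hy, rfl⟩
  · rintro ⟨y, hy, rfl⟩
    exact ⟨y, hy, rfl⟩

variable {Q : ∀ S : 𝒱.Obj, C.A (S.prod S) → Prop}

lemma surf_iff {j : ℕ} {p : C.A (P.prod P)} :
    Stm.IsSurfaceProduct Q j P p ↔ TransProd Q j P p := by
  constructor
  · intro h
    induction h with
    | surface S q h => exact TransProd.one S q h
    | prod j P S p q hp h ih => exact TransProd.prod j P S p q ih h
  · intro h
    induction h with
    | one S q h => exact Stm.IsSurfaceProduct.surface S q h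
    | prod j P S p q hp h ih => exact Stm.IsSurfaceProduct.prod j P S p q ih h

lemma inj_iff {j : ℕ} : Stm.InjectiveOnSurfaces H Q j ↔ HomInj H Q j :=
  ⟨fun h P p hp z hz hcl hpz => h P p (surf_iff.2 hp) z hz hcl hpz,
    fun h P p hp z hz hcl hpz => h P p (surf_iff.1 hp) z hz hcl hpz⟩

open Pool.Agent.Helper13BB.Stm Pool.Agent.Helper13MD.Stm in
/-- **The main theorem.** -/
theorem main {k : Type u} [Field k] {𝒱 : VarClass k} {C : TheoryData.{u, v, 0} 𝒱 ℚ}
    (hC : IsChowTheory C) {K : Type w} [Field K] {H : WeilTheoryData.{u, v, w} C K}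
    (hH : IsWeilTheory H) (hF : FibreProperty C) (hPic : PicardProperty H)
    (Q : ∀ S : 𝒱.Obj, C.A (S.prod S) → Prop) (hQ : ∀ S q, Q S q → IsTranscendental H S q)
    (hQ2 : ∀ T T' : 𝒱.Obj, T.dim = 1 → T'.dim = 1 → ∃ q, Q (T.prod T') q) :
    ((∀ X, SummandOf C (IsProduct Q) X → ConjectureD H X) ↔
      ∀ j, 2 ≤ j → InjectiveOnSurfaces H Q j) ∧
    ((∀ X, SummandOf C (IsProduct Q) X → ConjectureD H X) →
      ∀ X, SummandOf C (IsProduct Q) X → ConjectureB H X ∧ ConjectureC H X) ∧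
    ∀ d : ℕ,
      ((∀ j, 2 ≤ j → j ≤ d → InjectiveOnSurfaces H Q j) →
        ∀ X, SummandOf C (fun P => IsProduct Q P ∧ P.dim ≤ d) X →
          ConjectureB H X ∧ ConjectureC H X ∧ ConjectureD H X) ∧
      ((∀ X, SummandOf C (fun P => IsProduct Q P ∧ P.dim ≤ 2 * d) X → ConjectureD H X) →
        ∀ j, 2 ≤ j → j ≤ d → InjectiveOnSurfaces H Q j) := by
  have : IsChowProj C := Helper13BB.Conv.chow hC
  have : IsWeilProj H := Helper13BB.Conv.weil hH
  have hQ' : ∀ S q, Q S q → Y148.BB.IsTranscendental H S q :=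
    fun S q h => Helper13BB.Conv.trans (hQ S q h)
  have hF' := Helper13BB.Conv.fibre hF
  have hPic' : PicardFaithful H := hPic
  have h1 : ∀ X, SummandOf C (IsProduct Q) X ↔ SumD Q ⊤ X := by
    intro X
    rw [← Helper13BB.Conv.summand_iff]
    constructor
    · rintro ⟨P, hP, h⟩
      exact ⟨P, ⟨hP, le_top⟩, h⟩
    · rintro ⟨P, hP, h⟩
      exact ⟨P, hP.1, h⟩
  have h2 : ∀ (d : ℕ) X, (SummandOf C fun P => IsProduct Q P ∧ P.dim ≤ d) X ↔
      SumD Q (d : ℕ∞) X := by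
    intro d X
    rw [← Helper13BB.Conv.summand_iff]
    constructor
    · rintro ⟨P, hP, h⟩
      exact ⟨P, ⟨hP.1, by exact_mod_cast hP.2⟩, h⟩
    · rintro ⟨P, hP, h⟩
      exact ⟨P, ⟨hP.1, by exact_mod_cast hP.2⟩, h⟩
  -- sufficiency
  have h3 : ∀ {D : ℕ∞}, (∀ j : ℕ, 2 ≤ j → (j : ℕ∞) ≤ D → InjectiveOnSurfaces H Q j) →
      ∀ X, SumD Q D X → ConjectureB H X ∧ ConjectureC H X ∧ ConjectureD H X := by
    intro D hI X hX
    have hV := hvan_part hQ' hPic' hF' hQ2 (D := D) fun j hj hjD => inj_iff.1 (hI j hj hjD)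
    have hdec := sumD_hasDec hQ' hX
    refine ⟨?_, ?_, ?_⟩
    · intro π hπ i x
      have hπ' := ck_iff.1 hπ
      rw [step_iff, step_iff, hπ'.mem_ckFil, hπ'.mem_ckFil]
      refine ⟨fun hx => ⟨hx, fun j hj => murreB0_of hQ' hV hdec hπ' hx (by omega)⟩, ?_⟩
      rintro ⟨hx, hx'⟩
      have h5 : x = ∑ j ∈ Finset.range (2 * X.dim + 1), C.act (π j) x := by
        rw [← act_sum, hπ'.sum, act_dg]
      rw [h5]
      apply Finset.sum_eq_zero
      intro j _
      by_cases hj : j < i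
      · exact murreB1_of hQ' hV hdec hπ' hx hj
      · exact hx' j (by omega)
    · intro π π' hπ hπ' i n x hx
      rw [step_iff] at hx ⊢
      exact murreC_of hQ' hV hdec (ck_iff.1 hπ) (ck_iff.1 hπ') hx
    · intro π hπ i x
      have hπ' := ck_iff.1 hπ
      rw [step_iff, hπ'.mem_ckFil]
      constructor
      · rintro ⟨hx, hx'⟩
        refine ⟨hx, ?_⟩
        change H.cl x = 0
        have h5 : x = ∑ j ∈ Finset.range (2 * X.dim + 1), C.act (π j) x := by
          rw [← act_sum, hπ'.sum, act_dg]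
        rw [h5, map_sum]
        apply Finset.sum_eq_zero
        intro j _
        by_cases hj : j < 2 * i
        · rw [cl_act H]
          exact hπ'.act_ne j _ _ (by omega) (H.cl_mem hx)
        · rw [hx' j (by omega), map_zero]
      · rintro ⟨hx, hcl⟩
        exact ⟨hx, fun j hj => murreD_of hQ' hV hdec hπ' hx hcl (by omega)⟩
  -- necessity
  have h4 : ∀ {D : ℕ∞}, (∀ X, SumD Q D X → ConjectureD H X) → ∀ j : ℕ, ((2 * j : ℕ) : ℕ∞) ≤ D →
      InjectiveOnSurfaces H Q j := by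
    intro D hD j hj
    refine inj_iff.2 fun P p hp => homInj_of_murreD hQ' hp ?_
    have h5 := hD P (part_sumD hQ' hp.part hj)
    intro π hπ i x
    rw [← step_iff]
    exact h5 π (ck_iff.2 hπ) i x
  refine ⟨⟨fun h j _ => h4 (D := ⊤) (fun X hX => h X ((h1 X).2 hX)) j le_top, fun h X hX =>
    (h3 (D := ⊤) (fun j hj _ => h j hj) X ((h1 X).1 hX)).2.2⟩, ?_, fun d => ⟨?_, ?_⟩⟩
  · intro h X hX
    have h5 := h4 (D := ⊤) (fun X hX => h X ((h1 X).2 hX))
    have h6 := h3 (D := ⊤) (fun j _ _ => h5 j le_top) X ((h1 X).1 hX)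
    exact ⟨h6.1, h6.2.1⟩
  · intro h X hX
    exact h3 (D := (d : ℕ∞)) (fun j hj hjd => h j hj (by exact_mod_cast hjd)) X ((h2 d X).1 hX)
  · intro h j hj hjd
    refine h4 (D := ((2 * d : ℕ) : ℕ∞)) (fun X hX => h X ((h2 (2 * d) X).2 hX)) j ?_
    exact_mod_cast (by omega : 2 * j ≤ 2 * d)

end Pool.Agent.Helper13MD.Conv
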