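import Pool.Agent.Helper13MD.Van

/-!
# Merging pairs of curves into surfaces
-/

open CategoryTheory AlgebraicGeometry

universe u v w

namespace Pool.Agent.Helper13MD

open Pool.Agent.H914 Pool.Agent.H914.VarClass Pool.Agent.H914.VarClass.Obj Pool.Agent.W492.BB
  Pool.Agent.W550.Corr Pool.Agent.TH133 Pool.Agent.Y148.BB Pool.Agent.Helper13BB

set_option linter.unusedSectionVars false
set_option linter.unusedVariables false

variable {k : Type u} [Field k] {𝒱 : VarClass k}

variable {C : TheoryData.{u, v, 0} 𝒱 ℚ} [hC : IsChowProj C] {K : Type w} [Field K]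
  {H : WeilTheoryData.{u, v, w} C K} [hH : IsWeilProj H] {X Y Z W P P' S T T' R : 𝒱.Obj}

/-- The morphisms of Picard varieties are faithfully represented by `H^1`: a correspondence of degree
zero acting as zero on `H^1` acts as zero on homologically trivial divisors. -/
def PicardFaithful (H : WeilTheoryData.{u, v, w} C K) : Prop :=
  ∀ (X Y : 𝒱.Obj) (Γ : C.A (X.prod Y)), C.Deg X.dim Γ → Kills H Γ 1 → ∀ z : C.A X, C.Deg 1 z →
    H.cl z = 0 → C.act Γ z = 0

section basic

include hC hH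

lemma hvan_divisor (hPic : PicardFaithful H) {n : ℕ} {p : C.A (P.prod P)} (hp : Prim H n P p)
    (hn : n ≠ 1) : HVan H 1 P p := by
  intro z hz hcl hpz
  rw [← hpz]
  exact hPic P P p hp.deg (hp.kills (by exact_mod_cast hn.symm)) z (by exact_mod_cast hz) hcl

lemma HVan.of_iso {c : ℕ} {f : X ⟶ R} {g : R ⟶ X} (h1 : f ≫ g = 𝟙 _) (h2 : g ≫ f = 𝟙 _)
    {r : C.A (R.prod R)} (h : HVan H c R r) : HVan H c X (C.pull (prodMap f f) r) := by
  intro z hz hcl hpz
  have h3 : C.act r (C.pull g z) = C.pull g z := by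
    rw [act_push_iso h1 h2, hpz]
  have h4 : H.cl (C.pull g z) = 0 := by rw [H.cl_pull, hcl, map_zero]
  have h5 := h _ (C.pull_mem g hz) h4 h3
  have h6 : C.pull f (C.pull g z) = z := by rw [← C.pull_comp, h1, C.pull_id]
  rw [← h6, h5, map_zero]

omit hH in
lemma tens_add_left (Γ Γ' : C.A (X.prod Y)) (Δ : C.A (Z.prod W)) :
    tens C (Γ + Γ') Δ = tens C Γ Δ + tens C Γ' Δ := by
  rw [← tensL_apply, map_add, LinearMap.add_apply]
  rfl

lemma comp_odd_zero (hPic : PicardFaithful H) {n : ℕ} {r : C.A (R.prod R)} (hr : Prim H n R r)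
    (hn : 2 ≤ n) {o : C.A T} (hT : T.dim = 1) (ho : C.Deg 1 o) (hd : HasDegree C o 1)
    {g : C.A (T.prod R)} (hg : C.Deg 1 g) : C.comp (C.comp (oddProj C o) g) r = 0 := by
  have ht : Prim H 1 T (oddProj C o) := prim_curve hT ho hd
  have h1 := (hvan_divisor hPic (ht.tens hr) (by omega)).act' (ht.tens hr) (by omega)
    (z := g) (by exact_mod_cast hg)
  rwa [act_tens_eq (H := H) ht.self_dual] at h1

lemma comp_odd_zero' (hPic : PicardFaithful H) {n : ℕ} {r : C.A (R.prod R)} (hr : Prim H n R r)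
    (hn : 2 ≤ n) {o : C.A T} (hT : T.dim = 1) (ho : C.Deg 1 o) (hd : HasDegree C o 1)
    {f : C.A (R.prod T)} (hf : C.Deg 1 f) : C.comp (C.comp r f) (oddProj C o) = 0 := by
  have ht : Prim H 1 T (oddProj C o) := prim_curve hT ho hd
  have h1 := (hvan_divisor hPic (hr.tens ht) (by omega)).act' (hr.tens ht) (by omega)
    (z := f) (by exact_mod_cast hf)
  rwa [act_tens_eq (H := H) hr.self_dual] at h1

/-- **Merging**: the vanishing for `(P, p) ⊗ (S, r)`, where `r` is a projector of weight two on the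
surface `S`, follows from the vanishing for `(P, p) ⊗ t_2(S)` and for `(P, p)` in codimension one
less. -/
lemma hvan_merge (hPic : PicardFaithful H) {n : ℕ} {p : C.A (P.prod P)} (hp : Prim H n P p)
    {q : C.A (S.prod S)} (hq : IsTranscendental H S q) {r : C.A (S.prod S)} (hr : Prim H 2 S r)
    {j : ℕ} (hj : 1 ≤ j) (hA : HVan H j (P.prod S) (tens C p q)) (hB : HVan H (j - 1) P p) :
    HVan H j (P.prod S) (tens C p r) := by
  intro z hz hcl hpz
  obtain ⟨x, π, hx, hxd, hpen, hπ, hπ0, hπ4, hπq, hspan, h1, h3⟩ := hq.exists_ck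
  have hq' := prim_surface hq
  have hdim := hq.dim_eq
  -- the components of `r`
  have hr1 : C.act r (1 : C.A S) = 0 :=
    HVan.act' hr (hvan_zero (H := H) S r) (by norm_num) (by exact_mod_cast C.one_mem S)
  have c0 : C.comp (C.comp r (π 0)) r = 0 := by
    rw [hπ0, comp_ext, ext_comp, hr1, TheoryData.ext_zero_right]
  have c4 : C.comp (C.comp r (π 4)) r = 0 := by
    rw [hπ4, comp_ext, hr.self_dual, hr1, TheoryData.ext_zero_left, zero_comp]
  have c1 : C.comp (C.comp r (π 1)) r = 0 := by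
    have key : Submodule.span ℚ {c | ∃ (T : 𝒱.Obj) (o : C.A T) (f : C.A (S.prod T))
        (g : C.A (T.prod S)), T.dim = 1 ∧ C.Deg 1 o ∧ HasDegree C o 1 ∧ C.Deg 2 f ∧ C.Deg 1 g ∧
        c = C.comp f (C.comp (oddProj C o) g)} ≤
        LinearMap.ker ((compL C (X := S)).flip r ∘ₗ compL C (Z := S) r) := by
      rw [Submodule.span_le]
      rintro c ⟨T, o, f, g, hT, ho, hd, hf, hg, rfl⟩
      rw [SetLike.mem_coe, LinearMap.mem_ker]
      change C.comp (C.comp r (C.comp f (C.comp (oddProj C o) g))) r = 0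
      rw [comp_assoc, comp_assoc C f, comp_odd_zero hPic hr le_rfl hT ho hd hg, comp_zero, comp_zero]
    exact LinearMap.mem_ker.1 (key h1)
  have c3 : C.comp (C.comp r (π 3)) r = 0 := by
    have key : Submodule.span ℚ {c | ∃ (T : 𝒱.Obj) (o : C.A T) (f : C.A (S.prod T))
        (g : C.A (T.prod S)), T.dim = 1 ∧ C.Deg 1 o ∧ HasDegree C o 1 ∧ C.Deg 1 f ∧ C.Deg 2 g ∧
        c = C.comp f (C.comp (oddProj C o) g)} ≤
        LinearMap.ker ((compL C (X := S)).flip r ∘ₗ compL C (Z := S) r) := by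
      rw [Submodule.span_le]
      rintro c ⟨T, o, f, g, hT, ho, hd, hf, hg, rfl⟩
      rw [SetLike.mem_coe, LinearMap.mem_ker]
      change C.comp (C.comp r (C.comp f (C.comp (oddProj C o) g))) r = 0
      rw [← comp_assoc C r f, ← comp_assoc C (C.comp r f),
        comp_odd_zero' hPic hr le_rfl hT ho hd hf, zero_comp, zero_comp]
    exact LinearMap.mem_ker.1 (key h3)
  have e1 : dg C S = π 0 + π 1 + π 2 + π 3 + π 4 := by
    rw [← hπ.sum, hdim]
    have e : Finset.range (2 * 2 + 1) = Finset.range 5 := rfl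
    rw [e, Finset.sum_range_succ, Finset.sum_range_succ, Finset.sum_range_succ,
      Finset.sum_range_succ, Finset.sum_range_succ, Finset.sum_range_zero, zero_add]
  have e2 : r = C.comp (C.comp r q) r + C.comp (C.comp r (π 2 - q)) r := by
    have e3 : C.comp (C.comp r (dg C S)) r = r := by rw [comp_dg, hr.idem]
    rw [e1, comp_add, comp_add, comp_add, comp_add, add_comp, add_comp, add_comp, add_comp, c0, c1,
      c3, c4, zero_add, zero_add, add_zero, add_zero] at e3
    conv_lhs => rw [← e3]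
    rw [← add_comp, ← comp_add, add_sub_cancel]
  -- conjugation by `p ⊗ r`
  have conj : ∀ s : C.A (S.prod S), C.act (tens C p (C.comp (C.comp r s) r)) z =
      C.act (tens C p r) (C.act (tens C p s) z) := by
    intro s
    have e4 : tens C p (C.comp (C.comp r s) r) =
        C.comp (C.comp (tens C p r) (tens C p s)) (tens C p r) := by
      rw [tens_comp'', tens_comp'', hp.idem, hp.idem]
    rw [e4, C.act_comp, C.act_comp, hpz]
  have e5 : C.act (tens C p q) z = 0 := hA.act (hp.tens hq') hz hcl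
  have e6 : C.act (tens C p (π 2 - q)) z = 0 := by
    have key : Submodule.span ℚ {c | ∃ D D' : C.A S, C.Deg 1 D ∧ C.Deg 1 D' ∧ c = C.ext D D'} ≤
        LinearMap.ker ((actB C (X := P.prod S) (Y := P.prod S)).flip z ∘ₗ
          tensL (C := C) (X := P) (Y := P) (Z := S) (W := S) p) := by
      rw [Submodule.span_le]
      rintro c ⟨D, D', hD, hD', rfl⟩
      rw [SetLike.mem_coe, LinearMap.mem_ker]
      change C.act (tens C p (C.ext D D')) z = 0
      rw [act_tens_eq (H := H) hp.self_dual, comp_ext]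
      have e7 : C.act (tp C (C.comp p z)) D = C.act p (C.act (tp C z) D) := by
        rw [tp_comp C (ch_comm C), hp.self_dual, C.act_comp]
      rw [e7]
      have e8 : C.Deg ((j - 1 : ℕ) : ℤ) (C.act (tp C z) D) := by
        refine act_memZ (H := H) (tp_mem C hz) hD ?_
        rw [hdim, Nat.cast_sub hj]
        push_cast
        ring
      have e9 : H.cl (C.act (tp C z) D) = 0 := by
        refine cl_act_zero' ?_
        rw [cl_tp, hcl, tp_zero]
      rw [hB.act hp e8 e9, TheoryData.ext_zero_left]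
    exact LinearMap.mem_ker.1 (key hspan)
  rw [← hpz, e2, ← tensL_apply, map_add, tensL_apply, tensL_apply, TheoryData.act_add, conj, conj,
    e5, e6, TheoryData.act_map_zero, add_zero]

end basic

section perm

variable {Q : ∀ S : 𝒱.Obj, C.A (S.prod S) → Prop}

/-- Parts with `s` curves and `r` surfaces. -/
inductive PartN (Q : ∀ S : 𝒱.Obj, C.A (S.prod S) → Prop) :
    ℕ → ℕ → (P : 𝒱.Obj) → C.A (P.prod P) → Prop
  | curve (T : 𝒱.Obj) (o : C.A T) (hT : T.dim = 1) (ho : C.Deg 1 o) (hd : HasDegree C o 1) :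
      PartN Q 1 0 T (oddProj C o)
  | surface (S : 𝒱.Obj) (q : C.A (S.prod S)) (h : Q S q) : PartN Q 0 1 S q
  | prodc (s r : ℕ) (P T : 𝒱.Obj) (p : C.A (P.prod P)) (o : C.A T) (hp : PartN Q s r P p)
      (hT : T.dim = 1) (ho : C.Deg 1 o) (hd : HasDegree C o 1) :
      PartN Q (s + 1) r (P.prod T) (tens C p (oddProj C o))
  | prods (s r : ℕ) (P S : 𝒱.Obj) (p : C.A (P.prod P)) (q : C.A (S.prod S)) (hp : PartN Q s r P p)
      (h : Q S q) : PartN Q s (r + 1) (P.prod S) (tens C p q)

/-- Products of `r` surfaces. -/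
inductive TransProd (Q : ∀ S : 𝒱.Obj, C.A (S.prod S) → Prop) :
    ℕ → (P : 𝒱.Obj) → C.A (P.prod P) → Prop
  | one (S : 𝒱.Obj) (q : C.A (S.prod S)) (h : Q S q) : TransProd Q 1 S q
  | prod (r : ℕ) (P S : 𝒱.Obj) (p : C.A (P.prod P)) (q : C.A (S.prod S)) (hp : TransProd Q r P p)
      (h : Q S q) : TransProd Q (r + 1) (P.prod S) (tens C p q)

lemma PartN.of_part {n : ℕ} {p : C.A (P.prod P)} (h : IsPart Q n P p) :
    ∃ s r, n = s + 2 * r ∧ PartN Q s r P p := by
  induction h with
  | factor n T r hr =>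
    cases hr with
    | curve _ o hT ho hd => exact ⟨1, 0, rfl, PartN.curve T o hT ho hd⟩
    | surface _ q h => exact ⟨0, 1, rfl, PartN.surface _ _ h⟩
  | prod n m P T p r hp hr ih =>
    obtain ⟨s, l, rfl, h⟩ := ih
    cases hr with
    | curve _ o hT ho hd => exact ⟨s + 1, l, by omega, PartN.prodc s l P T p o h hT ho hd⟩
    | surface _ q h' => exact ⟨s, l + 1, by omega, PartN.prods s l P _ p _ h h'⟩

lemma PartN.part {s r : ℕ} {p : C.A (P.prod P)} (h : PartN Q s r P p) :
    IsPart Q (s + 2 * r) P p := by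
  induction h with
  | curve T o hT ho hd => exact IsPart.factor 1 T _ (IsFactor.curve T o hT ho hd)
  | surface S q h => exact IsPart.factor 2 S _ (IsFactor.surface S q h)
  | prodc s r P T p o hp hT ho hd ih =>
    have := IsPart.prod (s + 2 * r) 1 P T p _ ih (IsFactor.curve T o hT ho hd)
    rwa [show s + 2 * r + 1 = s + 1 + 2 * r by omega] at this
  | prods s r P S p q hp h ih =>
    have := IsPart.prod (s + 2 * r) 2 P S p _ ih (IsFactor.surface S q h)
    rwa [show s + 2 * r + 2 = s + 2 * (r + 1) by omega] at this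

lemma PartN.trans_aux {s r : ℕ} {p : C.A (P.prod P)} (h : PartN Q s r P p) :
    s = 0 → TransProd Q r P p := by
  induction h with
  | curve T o hT ho hd => intro h; omega
  | surface S q h => intro _; exact TransProd.one S q h
  | prodc s r P T p o hp hT ho hd ih => intro h; omega
  | prods s r P S p q hp h ih => intro hs; exact TransProd.prod r P S p q (ih hs) h

lemma TransProd.part {r : ℕ} {p : C.A (P.prod P)} (h : TransProd Q r P p) :
    IsPart Q (2 * r) P p := by
  induction h with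
  | one S q h => exact IsPart.factor 2 S _ (IsFactor.surface S q h)
  | prod r P S p q hp h ih => exact IsPart.prod (2 * r) 2 P S p _ ih (IsFactor.surface S q h)

/-- The exchange of the last two factors of a product of three. -/
noncomputable def ex (X Y Z : 𝒱.Obj) : (X.prod Y).prod Z ⟶ (X.prod Z).prod Y :=
  Obj.lift (Obj.lift (fst (X.prod Y) Z ≫ fst X Y) (snd (X.prod Y) Z)) (fst (X.prod Y) Z ≫ snd X Y)

lemma ex_ex (X Y Z : 𝒱.Obj) : ex X Y Z ≫ ex X Z Y = 𝟙 _ := by
  apply prod_ext
  · apply prod_ext <;> simp [ex, comp_lift]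
  · simp [ex, comp_lift]

lemma sw_sw' (X Y : 𝒱.Obj) : sw X Y ≫ sw Y X = 𝟙 _ := by
  apply prod_ext <;> simp [sw, comp_lift]

include hC

lemma tens_ex (p : C.A (X.prod X)) (q : C.A (Y.prod Y)) (t : C.A (Z.prod Z)) :
    tens C (tens C p q) t = C.pull (prodMap (ex X Y Z) (ex X Y Z)) (tens C (tens C p t) q) := by
  simp only [tens, map_mul, ← C.pull_comp, prodMap_comp]
  have e1 : ex X Y Z ≫ fst (X.prod Z) Y ≫ fst X Z = fst (X.prod Y) Z ≫ fst X Y := by
    simp [ex]
  have e2 : ex X Y Z ≫ fst (X.prod Z) Y ≫ snd X Z = snd (X.prod Y) Z := by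
    simp [ex]
  have e3 : ex X Y Z ≫ snd (X.prod Z) Y = fst (X.prod Y) Z ≫ snd X Y := by
    simp [ex]
  rw [e1, e2, e3, mul_assoc, mul_assoc, ch_comm C (C.pull _ q)]

lemma tens_sw (p : C.A (X.prod X)) (q : C.A (Y.prod Y)) :
    tens C p q = C.pull (prodMap (sw X Y) (sw X Y)) (tens C q p) := by
  simp only [tens, map_mul, ← C.pull_comp, prodMap_comp]
  have e1 : sw X Y ≫ fst Y X = snd X Y := by simp [sw]
  have e2 : sw X Y ≫ snd Y X = fst X Y := by simp [sw]
  rw [e1, e2, ch_comm C]

lemma tens_aI (p : C.A (X.prod X)) (q : C.A (Y.prod Y)) (t : C.A (Z.prod Z)) :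
    tens C (tens C p q) t = C.pull (prodMap (aI X Y Z) (aI X Y Z)) (tens C p (tens C q t)) := by
  simp only [tens, map_mul, ← C.pull_comp, prodMap_comp]
  have e1 : aI X Y Z ≫ fst X (Y.prod Z) = fst (X.prod Y) Z ≫ fst X Y := by
    simp [aI]
  have e2 : aI X Y Z ≫ snd X (Y.prod Z) ≫ fst Y Z = fst (X.prod Y) Z ≫ snd X Y := by
    simp [aI]
  have e3 : aI X Y Z ≫ snd X (Y.prod Z) ≫ snd Y Z = snd (X.prod Y) Z := by
    simp [aI]
  rw [e1, e2, e3, mul_assoc]

/-- Transport of the external product along an isomorphism of the first factor. -/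
lemma tens_iso_left {f : X ⟶ R} (p : C.A (R.prod R)) (t : C.A (Z.prod Z)) :
    tens C (C.pull (prodMap f f) p) t =
      C.pull (prodMap (prodMap f (𝟙 Z)) (prodMap f (𝟙 Z))) (tens C p t) := by
  simp only [tens, map_mul, ← C.pull_comp, prodMap_comp]
  rw [prodMap_fst, prodMap_snd, Category.comp_id]

/-- A curve factor can be moved to the end. -/
lemma PartN.move {s r : ℕ} {ρ : C.A (R.prod R)} (h : PartN Q s r R ρ) :
    ∀ s', s = s' + 1 → 1 ≤ s' + r → ∃ (P T : 𝒱.Obj) (p : C.A (P.prod P)) (o : C.A T)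
      (f : R ⟶ P.prod T) (g : P.prod T ⟶ R), PartN Q s' r P p ∧ T.dim = 1 ∧ C.Deg 1 o ∧
      HasDegree C o 1 ∧ f ≫ g = 𝟙 _ ∧ g ≫ f = 𝟙 _ ∧
      ρ = C.pull (prodMap f f) (tens C p (oddProj C o)) := by
  induction h with
  | curve T o hT ho hd => intro s' h1 h2; omega
  | surface S q h => intro s' h1 h2; omega
  | prodc s r P T p o hp hT ho hd ih =>
    intro s' h1 h2
    obtain rfl : s = s' := by omega
    refine ⟨P, T, p, o, 𝟙 _, 𝟙 _, hp, hT, ho, hd, Category.comp_id _, Category.comp_id _, ?_⟩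
    rw [prodMap_id, C.pull_id]
  | prods s r P S p q hp h ih =>
    intro s' h1 h2
    by_cases h3 : 1 ≤ s' + r
    · obtain ⟨P', T, p', o, f, g, hP', hT, ho, hd, hfg, hgf, he⟩ := ih s' h1 h3
      refine ⟨P'.prod S, T, tens C p' q, o, prodMap f (𝟙 S) ≫ ex P' T S,
        ex P' S T ≫ prodMap g (𝟙 S), PartN.prods s' r P' S p' q hP' h, hT, ho, hd, ?_, ?_, ?_⟩
      · rw [Category.assoc, ← Category.assoc (ex P' T S), ex_ex, Category.id_comp, prodMap_comp,
          hfg, Category.comp_id, prodMap_id]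
      · rw [Category.assoc, ← Category.assoc (prodMap g (𝟙 S)), prodMap_comp, hgf,
          Category.comp_id, prodMap_id, Category.id_comp, ex_ex]
      · rw [he, tens_iso_left, tens_ex, ← C.pull_comp, prodMap_comp]
    · obtain ⟨rfl, rfl⟩ : s' = 0 ∧ r = 0 := by omega
      obtain rfl : s = 1 := h1
      cases hp with
      | curve _ o hT ho hd =>
        refine ⟨S, P, q, o, sw P S, sw S P, PartN.surface S q h, hT, ho, hd, sw_sw' _ _,
          sw_sw' _ _, ?_⟩
        rw [tens_sw]
      | prodc s r P T p o hp hT ho hd =>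
        exfalso
        have : ∀ {s r : ℕ} {P : 𝒱.Obj} {p : C.A (P.prod P)}, PartN Q s r P p → 1 ≤ s + r := by
          intro s r P p h
          induction h <;> omega
        have := this hp
        omega

end perm

end Pool.Agent.Helper13MD
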