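import Pool.Agent.Helper13MD.Merge

/-!
# The vanishing theorem for the primitive parts
-/

open CategoryTheory AlgebraicGeometry

universe u v w

namespace Pool.Agent.Helper13MD

open Pool.Agent.H914 Pool.Agent.H914.VarClass Pool.Agent.H914.VarClass.Obj Pool.Agent.W492.BB
  Pool.Agent.W550.Corr Pool.Agent.TH133 Pool.Agent.Y148.BB Pool.Agent.Helper13BB

set_option linter.unusedSectionVars false
set_option linter.unusedVariables false

variable {k : Type u} [Field k] {𝒱 : VarClass k}

variable {C : TheoryData.{u, v, 0} 𝒱 ℚ} [hC : IsChowProj C] {K : Type w} [Field K]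
  {H : WeilTheoryData.{u, v, w} C K} [hH : IsWeilProj H] {X Y Z W P P' S T T' R : 𝒱.Obj}
  {Q : ∀ S : 𝒱.Obj, C.A (S.prod S) → Prop}

/-- The homologically trivial cycles of codimension `j` of `t_2(S_1) ⊗ ⋯ ⊗ t_2(S_j)` vanish. -/
def HomInj (H : WeilTheoryData.{u, v, w} C K) (Q : ∀ S : 𝒱.Obj, C.A (S.prod S) → Prop) (j : ℕ) :
    Prop :=
  ∀ (P : 𝒱.Obj) (p : C.A (P.prod P)), TransProd Q j P p → HVan H j P p

include hC hH

/-- The vanishing in weight exactly `2 j`. -/
theorem hvan_base (hQ : ∀ S q, Q S q → IsTranscendental H S q) (hPic : PicardFaithful H)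
    (hQ2 : ∀ T T' : 𝒱.Obj, T.dim = 1 → T'.dim = 1 → ∃ q, Q (T.prod T') q) (j : ℕ) :
    (∀ i : ℕ, 2 ≤ i → i ≤ j → HomInj H Q i) → ∀ (s r : ℕ) (R : 𝒱.Obj) (ρ : C.A (R.prod R)),
      s + 2 * r = 2 * j → PartN Q s r R ρ → HVan H j R ρ := by
  induction j using Nat.strong_induction_on with
  | _ j ihj =>
    intro hI s
    induction s using Nat.strong_induction_on with
    | _ s ihs =>
      intro r R ρ hsr hR
      by_cases hj0 : j = 0
      · subst hj0
        exact hvan_zero R ρ
      by_cases hj1 : j = 1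
      · subst hj1
        exact hvan_divisor hPic (prim_part hQ hR.part) (by omega)
      by_cases hs0 : s = 0
      · obtain rfl : r = j := by omega
        exact hI r (by omega) le_rfl R ρ (hR.trans_aux hs0)
      obtain ⟨s1, rfl⟩ : ∃ s1, s = s1 + 1 + 1 := ⟨s - 2, by omega⟩
      obtain ⟨P1, T, p1, o, f, g, hP1, hT, ho, hd, hfg, hgf, rfl⟩ :=
        hR.move (s1 + 1) rfl (by omega)
      obtain ⟨P2, T', p2, o', f', g', hP2, hT', ho', hd', hfg', hgf', rfl⟩ :=
        hP1.move s1 rfl (by omega)
      refine HVan.of_iso hfg hgf ?_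
      rw [tens_iso_left]
      refine HVan.of_iso (f := prodMap f' (𝟙 T)) (g := prodMap g' (𝟙 T)) ?_ ?_ ?_
      · rw [prodMap_comp, hfg', Category.comp_id, prodMap_id]
      · rw [prodMap_comp, hgf', Category.comp_id, prodMap_id]
      rw [tens_aI]
      refine HVan.of_iso aI_aJ aJ_aI ?_
      obtain ⟨q, hq⟩ := hQ2 T' T hT' hT
      have hp2 := prim_part hQ hP2.part
      have hr : Prim H 2 (T'.prod T) (tens C (oddProj C o') (oddProj C o)) :=
        (prim_curve hT' ho' hd').tens (prim_curve hT ho hd)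
      refine hvan_merge hPic hp2 (hQ _ _ hq) hr (by omega) ?_ ?_
      · exact ihs s1 (by omega) (r + 1) _ _ (by omega) (PartN.prods s1 r P2 _ p2 q hP2 hq)
      · exact ihj (j - 1) (by omega) (fun i h1 h2 => hI i h1 (by omega)) s1 r P2 p2 (by omega) hP2

/-- **The vanishing theorem**: homologically trivial cycles of codimension `c` vanish on all primitive
parts of weight at least `2 c`. -/
theorem hvan_part (hQ : ∀ S q, Q S q → IsTranscendental H S q) (hPic : PicardFaithful H)
    (hF : FibreProperty C) (hQ2 : ∀ T T' : 𝒱.Obj, T.dim = 1 → T'.dim = 1 → ∃ q, Q (T.prod T') q)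
    {D : ℕ∞} (hInj : ∀ j : ℕ, 2 ≤ j → (j : ℕ∞) ≤ D → HomInj H Q j) (c : ℕ) :
    (c : ℕ∞) ≤ D → ∀ (m : ℕ) (R : 𝒱.Obj) (r : C.A (R.prod R)),
      IsPart Q m R r → 2 * c ≤ m → HVan H c R r := by
  induction c using Nat.strong_induction_on with
  | _ c ihc =>
    intro hcD m
    induction m using Nat.strong_induction_on with
    | _ m ihm =>
      intro R r hR hcm
      by_cases hc0 : c = 0
      · subst hc0
        exact hvan_zero R r
      by_cases hc1 : c = 1
      · subst hc1
        exact hvan_divisor hPic (prim_part hQ hR) (by omega)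
      have hle : ∀ c' : ℕ, c' ≤ c → (c' : ℕ∞) ≤ D := fun c' h =>
        le_trans (by exact_mod_cast h) hcD
      by_cases hm : m = 2 * c
      · subst hm
        obtain ⟨s, l, hsl, hN⟩ := PartN.of_part hR
        exact hvan_base hQ hPic hQ2 c (fun i h1 h2 => hInj i h1 (hle i h2)) s l R r hsl.symm hN
      · cases hR with
        | factor _ _ _ hr =>
          exfalso
          cases hr with
          | curve => omega
          | surface => omega
        | prod n m' P T p r hp hr =>
          cases hr with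
          | curve _ o hT ho hd =>
            exact hvan_curve (prim_part hQ hp) hT ho hd hF (by omega) (by omega)
              (ihm n (by omega) P p hp (by omega))
              (ihc (c - 1) (by omega) (hle _ (by omega)) n P p hp (by omega))
          | surface _ q hq =>
            exact hvan_surface (prim_part hQ hp) (hQ _ _ hq) (by omega) (by omega)
              (fun T o hT ho hd => ihm (n + 1) (by omega) _ _
                (IsPart.prod n 1 P T p _ hp (IsFactor.curve T o hT ho hd)) (by omega))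
              (ihc (c - 1) (by omega) (hle _ (by omega)) n P p hp (by omega))
              (fun T o hT ho hd => ihc (c - 1) (by omega) (hle _ (by omega)) (n + 1) _ _
                (IsPart.prod n 1 P T p _ hp (IsFactor.curve T o hT ho hd)) (by omega))
              (fun h => ihc (c - 2) (by omega) (hle _ (by omega)) n P p hp (by omega))

/-- The vanishing for external products of primitive parts. -/
lemma hvan_prod {n m c : ℕ} {p : C.A (P.prod P)} {p' : C.A (P'.prod P')}
    (hV : ∀ (m : ℕ) (R : 𝒱.Obj) (r : C.A (R.prod R)), IsPart Q m R r → 2 * c ≤ m → HVan H c R r)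
    (hp : IsPart Q n P p) (hp' : IsPart Q m P' p')
    (hc : 2 * c ≤ n + m) : HVan H c (P.prod P') (tens C p p') := by
  obtain ⟨R, r, f, g, hR, h1, h2, h3⟩ := exists_part_prod hp hp'
  rw [h3]
  exact HVan.of_iso h1 h2 (hV _ R r hR hc)

/-- The vanishing of correspondences between primitive parts: those which lower `2 i - n`, and the
homologically trivial ones which preserve it. -/
lemma corr_zero (hQ : ∀ S q, Q S q → IsTranscendental H S q) {n m : ℕ} {p : C.A (P.prod P)}
    {p' : C.A (P'.prod P')} {D : ℕ∞}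
    (hV : ∀ c : ℕ, (c : ℕ∞) ≤ D → ∀ (m : ℕ) (R : 𝒱.Obj) (r : C.A (R.prod R)),
      IsPart Q m R r → 2 * c ≤ m → HVan H c R r)
    (hp : IsPart Q n P p) (hp' : IsPart Q m P' p')
    (hn : (n : ℕ∞) ≤ D) (hm : (m : ℕ∞) ≤ D) {c : ℤ} {γ : C.A (P.prod P')} (hγ : C.Deg c γ)
    (hc : 2 * c < n + m ∨ (2 * c = n + m ∧ H.cl (C.comp (C.comp p γ) p') = 0)) :
    C.comp (C.comp p γ) p' = 0 := by
  have hP := (prim_part hQ hp).tens (prim_part hQ hp')
  have h1 : C.act (tens C p p') γ = C.comp (C.comp p γ) p' := by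
    rw [act_tens_eq (H := H) (prim_part hQ hp).self_dual]
  have hγ' : γ ∈ C.gr (P.prod P') c := hγ
  by_cases hc0 : c < 0
  · rw [C.gr_neg _ _ hc0] at hγ'
    rw [(Submodule.mem_bot _).1 hγ', comp_zero, zero_comp]
  obtain ⟨c, rfl⟩ := Int.eq_ofNat_of_zero_le (not_lt.1 hc0)
  have hcD : (c : ℕ∞) ≤ D := by
    have : c ≤ n ∨ c ≤ m := by omega
    rcases this with h | h
    · exact le_trans (by exact_mod_cast h) hn
    · exact le_trans (by exact_mod_cast h) hm
  have hV' := hvan_prod (hV c hcD) hp hp' (by omega)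
  rcases hc with hc | ⟨hc, hcl⟩
  · rw [← h1]
    exact hV'.act' hP (by omega) hγ
  · have h2 : C.act (tens C p p') (C.act (tens C p p') γ) = C.act (tens C p p') γ := by
      rw [← C.act_comp, hP.idem]
    rw [← h1]
    refine hV' _ (act00 (H := H) hP.deg hγ) ?_ h2
    rw [h1]
    exact hcl

end Pool.Agent.Helper13MD
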