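import Pool.Agent.Helper13BB.Stm

/-!
# Murre's conjectures on motives generated by curves and surfaces: the definitions used in the
statement
-/

open CategoryTheory AlgebraicGeometry

universe u v w

namespace Pool.Agent.Helper13MD.Stm

open Pool.Agent.H914 Pool.Agent.H914.VarClass Pool.Agent.H914.VarClass.Obj Pool.Agent.W492.BB
  Pool.Agent.Helper13BB.Stm

variable {k : Type u} [Field k] {𝒱 : VarClass k} {C : TheoryData.{u, v, 0} 𝒱 ℚ}

/-- `IsSurfaceProduct Q j P p`: `P = S_1 × ⋯ × S_j` is a product of `j` surfaces and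
`p = q_1 × ⋯ × q_j` with `Q S_i q_i`, so that `(P, p)` is the motive `t_2(S_1) ⊗ ⋯ ⊗ t_2(S_j)`. -/
inductive IsSurfaceProduct (Q : ∀ S : 𝒱.Obj, C.A (S.prod S) → Prop) :
    ℕ → (P : 𝒱.Obj) → C.A (P.prod P) → Prop
  | surface (S : 𝒱.Obj) (q : C.A (S.prod S)) (h : Q S q) : IsSurfaceProduct Q 1 S q
  | prod (j : ℕ) (P S : 𝒱.Obj) (p : C.A (P.prod P)) (q : C.A (S.prod S))
      (hp : IsSurfaceProduct Q j P p) (h : Q S q) : IsSurfaceProduct Q (j + 1) (P.prod S) (box C p q)

variable (C) in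
/-- The class `x` lies in the step `F^n CH^i(X) = (π_(2i-n) + ⋯ + π_0)_* CH^i(X)` of the filtration
given by `π` (which is zero for `n > 2 i`). -/
def InStep {X : 𝒱.Obj} (π : ℕ → C.A (X.prod X)) (i n : ℕ) (x : C.A X) : Prop :=
  ∃ y : C.A X, C.Deg i y ∧ x = C.act (∑ m ∈ Finset.range (2 * i + 1 - n), π m) y

section weil

variable {K : Type w} [Field K] (H : WeilTheoryData.{u, v, w} C K)

/-- The theory of the Picard variety: a correspondence of degree zero from `X` to `Y` which acts as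
zero on `H^1(X)` acts as zero on the homologically trivial divisor classes of `X`. -/
def PicardProperty : Prop :=
  ∀ (X Y : 𝒱.Obj) (Γ : C.A (X.prod Y)), C.Deg X.dim Γ → Kills H Γ 1 → ∀ z : C.A X, C.Deg 1 z →
    HomTriv H z → C.act Γ z = 0

/-- The homologically trivial cycles of codimension `j` of the motives
`t_2(S_1) ⊗ ⋯ ⊗ t_2(S_j)` vanish: a homologically trivial class `z ∈ CH^j(S_1 × ⋯ × S_j)` with
`(q_1 × ⋯ × q_j)_* z = z` is zero. -/
def InjectiveOnSurfaces (Q : ∀ S : 𝒱.Obj, C.A (S.prod S) → Prop) (j : ℕ) : Prop :=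
  ∀ (P : 𝒱.Obj) (p : C.A (P.prod P)), IsSurfaceProduct Q j P p →
    ∀ z : C.A P, C.Deg j z → HomTriv H z → C.act p z = z → z = 0

/-- Murre's conjecture (B) for `X` and all its Chow-Kunneth decompositions:
`F^0 CH^i(X) = CH^i(X)` and `F^(i+1) CH^i(X) = 0`. -/
def ConjectureB (X : 𝒱.Obj) : Prop :=
  ∀ π, IsChowKunneth H X π → ∀ (i : ℕ) (x : C.A X),
    (C.Deg i x → InStep C π i 0 x) ∧ (InStep C π i (i + 1) x → x = 0)

/-- Murre's conjecture (C) for `X`: the filtration is independent of the Chow-Kunneth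
decomposition. -/
def ConjectureC (X : 𝒱.Obj) : Prop :=
  ∀ π π', IsChowKunneth H X π → IsChowKunneth H X π' → ∀ (i n : ℕ) (x : C.A X),
    InStep C π i n x → InStep C π' i n x

/-- Murre's conjecture (D) for `X` and all its Chow-Kunneth decompositions: `F^1 CH^i(X)` is the
group of homologically trivial cycles. -/
def ConjectureD (X : 𝒱.Obj) : Prop :=
  ∀ π, IsChowKunneth H X π → ∀ (i : ℕ) (x : C.A X), InStep C π i 1 x ↔ C.Deg i x ∧ HomTriv H x

end weil

end Pool.Agent.Helper13MD.Stm
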