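import Pool.Agent.Helper13BB.Ind

/-!
# Vanishing of homologically trivial cycles on primitive parts

The steps of the induction on the number of factors, for homologically trivial cycles.
-/

open CategoryTheory AlgebraicGeometry

universe u v w

namespace Pool.Agent.Helper13MD

open Pool.Agent.H914 Pool.Agent.H914.VarClass Pool.Agent.H914.VarClass.Obj Pool.Agent.W492.BB
  Pool.Agent.W550.Corr Pool.Agent.TH133 Pool.Agent.Y148.BB Pool.Agent.Helper13BB

set_option linter.unusedSectionVars false
set_option linter.unusedVariables false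

variable {k : Type u} [Field k] {𝒱 : VarClass k}

variable {C : TheoryData.{u, v, 0} 𝒱 ℚ} [hC : IsChowProj C] {K : Type w} [Field K]
  {H : WeilTheoryData.{u, v, w} C K} [hH : IsWeilProj H] {X Y Z W P P' S T R : 𝒱.Obj}

/-- The homologically trivial cycles of codimension `c` of `(P, p)` vanish. -/
def HVan (H : WeilTheoryData.{u, v, w} C K) (c : ℕ) (P : 𝒱.Obj) (p : C.A (P.prod P)) : Prop :=
  ∀ z : C.A P, C.Deg c z → H.cl z = 0 → C.act p z = z → z = 0

include hC hH

lemma act_tens_eq {p : C.A (P.prod P)} {r : C.A (T.prod T)} (hp : tp C p = p)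
    (z : C.A (P.prod T)) : C.act (tens C p r) z = C.comp (C.comp p z) r := by
  rw [act_tens C (ch_comm C), hp]

lemma act00 {i : ℤ} {Γ : C.A (X.prod Y)} (hΓ : Γ ∈ C.gr (X.prod Y) X.dim) {x : C.A X}
    (hx : x ∈ C.gr X i) : C.act Γ x ∈ C.gr Y i := by
  have := act_mem' C (e := 0) (by rwa [add_zero]) hx
  rwa [add_zero] at this

lemma act_memZ {i j l : ℤ} {Γ : C.A (X.prod Y)} {x : C.A X}
    (hΓ : Γ ∈ C.gr (X.prod Y) i) (hx : x ∈ C.gr X j) (h : l = i + j - X.dim) :
    C.act Γ x ∈ C.gr Y l := by
  have h1 := act_mem' C (e := i - X.dim) (Γ := Γ) (gr_congr (C := C) (by ring) hΓ) hx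
  exact gr_congr (C := C) (by rw [h]; ring) h1

lemma comp_memZ {i j l : ℤ} {Γ : C.A (X.prod Y)} {Δ : C.A (Y.prod Z)}
    (hΓ : Γ ∈ C.gr (X.prod Y) i) (hΔ : Δ ∈ C.gr (Y.prod Z) j) (h : l = i + j - Y.dim) :
    C.comp Γ Δ ∈ C.gr (X.prod Z) l := by
  have h1 := comp_mem C (e := i - X.dim) (e' := j - Y.dim) (Γ := Γ) (Δ := Δ)
    (gr_congr (C := C) (by ring) hΓ) (gr_congr (C := C) (by ring) hΔ)
  exact gr_congr (C := C) (by rw [h]; ring) h1

/-- The vanishing applied to a class which is not known to be fixed by the projector. -/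
lemma HVan.act {n c : ℕ} {p : C.A (P.prod P)} (hp : Prim H n P p) (h : HVan H c P p)
    {z : C.A P} (hz : C.Deg c z) (hcl : H.cl z = 0) : C.act p z = 0 := by
  refine h _ (act00 (H := H) hp.deg hz) (cl_act_zero hcl) ?_
  rw [← C.act_comp, hp.idem]

/-- In codimension `c ≠ n / 2` no hypothesis on the cohomology class is needed. -/
lemma HVan.act' {n c : ℕ} {p : C.A (P.prod P)} (hp : Prim H n P p) (h : HVan H c P p)
    (hc : 2 * c ≠ n) {z : C.A P} (hz : C.Deg c z) : C.act p z = 0 := by
  have h1 : C.act p (C.act p z) = C.act p z := by rw [← C.act_comp, hp.idem]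
  have h2 : C.Deg c (C.act p z) := act00 (H := H) hp.deg hz
  exact h _ h2 (hp.cl_zero (by omega) h2 h1) h1

/-- The case of negative codimension included. -/
lemma HVan.act_sub {n c a : ℕ} {p : C.A (P.prod P)} (hp : Prim H n P p) {z : C.A P}
    (h : a ≤ c → HVan H (c - a) P p) (hc : a ≤ c → 2 * (c - a) ≠ n)
    (hz : C.Deg ((c : ℤ) - a) z) : C.act p z = 0 := by
  by_cases hca : a ≤ c
  · refine (h hca).act' hp (hc hca) ?_
    rw [Nat.cast_sub hca]
    exact hz
  · have e3 : z ∈ C.gr P ((c : ℤ) - a) := hz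
    rw [C.gr_neg P ((c : ℤ) - a) (by omega)] at e3
    rw [(Submodule.mem_bot _).1 e3, TheoryData.act_map_zero]

lemma hvan_zero (P : 𝒱.Obj) (p : C.A (P.prod P)) : HVan H 0 P p := fun z hz hcl _ =>
  eq_zero_of_deg_zero (H := H) (by exact_mod_cast hz) hcl

/-- The step for a curve. -/
lemma hvan_curve {n : ℕ} {p : C.A (P.prod P)} (hp : Prim H n P p) {o : C.A T} (hT : T.dim = 1)
    (ho : C.Deg 1 o) (hd : HasDegree C o 1) (hF : FibreProperty C) {c : ℕ} (hc : 1 ≤ c)
    (hcn : 2 * c ≤ n) (h1 : HVan H c P p) (h2 : HVan H (c - 1) P p) :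
    HVan H c (P.prod T) (tens C p (oddProj C o)) := by
  intro z hz1 hz2 hpz
  have hr : Prim H 1 T (oddProj C o) := prim_curve hT ho hd
  set r := oddProj C o with hrdef
  have h3 : C.comp (C.comp p z) r = z := by
    rw [← act_tens_eq (H := H) hp.self_dual]
    exact hpz
  have h4 : tp C z = C.comp r (C.comp (tp C z) p) := by
    conv_lhs => rw [← h3]
    rw [tp_comp C (ch_comm C), tp_comp C (ch_comm C), hr.self_dual, hp.self_dual]
  have key : ∀ t : C.A T, C.Deg 1 t → C.act (tp C z) t = 0 := by
    intro t ht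
    have h5 : C.act (tp C z) t = C.act p (C.act (tp C z) t) := by
      have h4' : C.comp (tp C z) p = tp C z := by
        rw [h4, comp_assoc, comp_assoc, hp.idem]
      conv_lhs => rw [← h4', C.act_comp]
    rw [h5]
    refine h1.act hp ?_ (cl_act_zero' ?_)
    · refine act_memZ (H := H) (tp_mem C hz1) ht ?_
      rw [hT]
      push_cast
      ring
    · rw [cl_tp, hz2, tp_zero]
  have h6 := hF P T c z hT hz1 (fun t ht => by
    have h7 := key t ht
    rw [act_tp] at h7
    exact h7)
  have h8 : ∀ y ∈ Submodule.span ℚ {y | ∃ (x : C.A P) (t : C.A T), C.Deg ((c : ℤ) - 1) x ∧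
      C.Deg 1 t ∧ y = C.ext x t}, C.act (tens C p r) y = 0 := by
    intro y hy
    induction hy using Submodule.span_induction with
    | mem y hy =>
      obtain ⟨x, t, hx, ht, rfl⟩ := hy
      rw [act_tens_ext C p r (fun f c => ch_comm C _ _)]
      have h9 : C.act p x = 0 := by
        refine HVan.act_sub (c := c) (a := 1) hp (fun _ => h2) (fun _ => by omega) ?_
        exact_mod_cast hx
      rw [h9, TheoryData.ext_zero_left]
    | zero => rw [TheoryData.act_map_zero]
    | add x y _ _ hx hy => rw [act_map_add, hx, hy, add_zero]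
    | smul c x _ hx => rw [act_map_smul, hx, smul_zero]
  rw [← hpz]
  exact h8 z h6

omit hH in
/-- A class on `P × T` is the sum of its three components. -/
lemma three_parts {o : C.A T} (w : C.A (P.prod T)) :
    w = C.ext (C.act (tp C w) o) 1 + C.comp w (oddProj C o) + C.ext (C.act (tp C w) 1) o := by
  have h1 : C.comp w (dg C T) = w := comp_dg C w
  have h2 : dg C T = C.ext o 1 + oddProj C o + C.ext 1 o := by
    rw [oddProj]
    abel
  conv_lhs => rw [← h1, h2, comp_add, comp_add, comp_ext, comp_ext]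

/-- The step for a surface. -/
lemma hvan_surface {n : ℕ} {p : C.A (P.prod P)} (hp : Prim H n P p) {q : C.A (S.prod S)}
    (hq : IsTranscendental H S q) {c : ℕ} (hc : 1 ≤ c) (hcn : 2 * c ≤ n + 1)
    (h1 : ∀ (T : 𝒱.Obj) (o : C.A T), T.dim = 1 → C.Deg 1 o → HasDegree C o 1 →
      HVan H c (P.prod T) (tens C p (oddProj C o)))
    (h2 : HVan H (c - 1) P p)
    (h3 : ∀ (T : 𝒱.Obj) (o : C.A T), T.dim = 1 → C.Deg 1 o → HasDegree C o 1 →
      HVan H (c - 1) (P.prod T) (tens C p (oddProj C o)))
    (h4 : 2 ≤ c → HVan H (c - 2) P p) :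
    HVan H c (P.prod S) (tens C p q) := by
  intro z hz1 hz2 hpz
  have hq' := prim_surface hq
  obtain ⟨x, π, hx, hxd, hpen, hπ, hπ0, hπ4, hπq, -⟩ := hq.exists_ck
  -- the projector kills the point
  have hqx : C.act q x = 0 := by
    have e1 : C.comp (π 4) (π 2) = 0 := hπ.orth 4 2 (by norm_num)
    rw [hπ4, ext_comp] at e1
    have e2 : C.act (π 2) x = 0 := by
      have e3 : C.act (C.ext (1 : C.A S) (C.act (π 2) x)) x = 0 := by
        rw [e1, TheoryData.act_zero]
      rw [act_ext' (q := 1) (by rwa [one_mul]), one_smul] at e3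
      exact e3
    rw [← hπq, C.act_comp, e2, TheoryData.act_map_zero]
  have h5 : C.comp (C.comp p z) q = z := by
    rw [← act_tens_eq (H := H) hp.self_dual]
    exact hpz
  have h6 : tp C z = C.comp q (C.comp (tp C z) p) := by
    conv_lhs => rw [← h5]
    rw [tp_comp C (ch_comm C), tp_comp C (ch_comm C), hq'.self_dual, hp.self_dual]
  have h7 : C.comp p z = z := by
    conv_lhs => rw [← h5]
    rw [← comp_assoc, ← comp_assoc, hp.idem, h5]
  -- the restrictions to the curves of the pencil vanish
  have key : ∀ (T : 𝒱.Obj) (i : T ⟶ S) (o : C.A T), T.dim = 1 → C.Deg 1 o → HasDegree C o 1 →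
      C.down i o = x → C.up (prodMap (𝟙 P) i) z = 0 := by
    intro T i o hT ho hd hi
    have hr : Prim H 1 T (oddProj C o) := prim_curve hT ho hd
    change C.pull (prodMap (𝟙 P) i) z = 0
    set w := C.pull (prodMap (𝟙 P) i) z with hw
    have hwd : C.Deg c w := C.pull_mem _ hz1
    have hwcl : H.cl w = 0 := by rw [hw, H.cl_pull, hz2, map_zero]
    have hwe : w = C.comp z (tp C (C.graph i)) := pull_eq_comp i z
    have hpw : C.comp p w = w := by rw [hwe, ← comp_assoc, h7]
    have htw : tp C w = C.comp (C.graph i) (tp C z) := by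
      rw [hwe, tp_comp C (ch_comm C), tp_tp]
    have ha : C.act (tp C w) o = 0 := by
      have hi' : C.push i o = x := hi
      rw [htw, C.act_comp, C.act_graph, hi', h6, C.act_comp, hqx, TheoryData.act_map_zero]
    have hb : C.comp w (oddProj C o) = 0 := by
      have e1 : C.act (tens C p (oddProj C o)) w = C.comp w (oddProj C o) := by
        rw [act_tens_eq (H := H) hp.self_dual, hpw]
      rw [← e1]
      exact (h1 T o hT ho hd).act (hp.tens hr) hwd hwcl
    have hc' : C.act (tp C w) (1 : C.A T) = 0 := by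
      have e1 : tp C w = C.comp (tp C w) p := by
        conv_lhs => rw [← hpw]
        rw [tp_comp C (ch_comm C), hp.self_dual]
      have e2 : C.act (tp C w) (1 : C.A T) = C.act p (C.act (tp C w) (1 : C.A T)) := by
        conv_lhs => rw [e1, C.act_comp]
      rw [e2]
      refine HVan.act_sub (c := c) (a := 1) hp (fun _ => h2) (fun _ => by omega) ?_
      refine act_memZ (H := H) (tp_mem C hwd) (C.one_mem T) ?_
      rw [hT]
      push_cast
      ring
    rw [three_parts (o := o) w, ha, hb, hc', TheoryData.ext_zero_left,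
      TheoryData.ext_zero_left, add_zero, add_zero]
  have h8 := hpen P c z hz1 key
  -- the classes supported on the curves vanish
  have h9 : ∀ y ∈ Submodule.span ℚ {y | ∃ (T : 𝒱.Obj) (i : T ⟶ S) (w : C.A (P.prod T)),
      T.dim = 1 ∧ C.Deg ((c : ℤ) - 1) w ∧ y = C.down (prodMap (𝟙 P) i) w},
      C.act (tens C p q) y = 0 := by
    intro y hy
    induction hy using Submodule.span_induction with
    | mem y hy =>
      obtain ⟨T, i, w, hT, hw, rfl⟩ := hy
      obtain ⟨o, ho, hd1, hd2⟩ := exists_deg_one C T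
      have hd : HasDegree C o 1 := fun Z => ⟨by rw [one_smul]; exact hd2 Z, by
        rw [one_smul]; exact hd1 Z⟩
      have ho' : C.Deg 1 o := by
        rw [hT] at ho
        exact_mod_cast ho
      have hr : Prim H 1 T (oddProj C o) := prim_curve hT ho' hd
      change C.act (tens C p q) (C.push (prodMap (𝟙 P) i) w) = 0
      rw [act_tens_eq (H := H) hp.self_dual, ← comp_graph, three_parts (o := o) w]
      have hD : C.act q (C.push i 1) = 0 := by
        apply hq.divisor
        have e1 := C.push_mem i (C.one_mem T)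
        refine gr_congr (C := C) ?_ e1
        rw [hT, hq.dim_eq]
        norm_num
      have hb : C.comp p (C.comp w (oddProj C o)) = 0 := by
        have e1 : C.act (tens C p (oddProj C o)) w = C.comp p (C.comp w (oddProj C o)) := by
          rw [act_tens_eq (H := H) hp.self_dual, comp_assoc]
        rw [← e1]
        refine HVan.act_sub (c := c) (a := 1) (hp.tens hr) (fun _ => h3 T o hT ho' hd)
          (fun _ => by omega) ?_
        exact_mod_cast hw
      have hc' : C.act p (C.act (tp C w) (1 : C.A T)) = 0 := by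
        refine HVan.act_sub (c := c) (a := 2) hp h4 (fun _ => by omega) ?_
        refine act_memZ (H := H) (tp_mem C hw) (C.one_mem T) ?_
        rw [hT]
        push_cast
        ring
      have t1 : C.comp (C.comp p (C.comp (C.ext (C.act (tp C w) o) (1 : C.A T))
          (C.graph i))) q = 0 := by
        rw [ext_comp, C.act_graph, comp_ext, ext_comp, hD, TheoryData.ext_zero_right]
      have t2 : C.comp (C.comp p (C.comp (C.comp w (oddProj C o)) (C.graph i))) q = 0 := by
        rw [← comp_assoc C p, hb, zero_comp, zero_comp]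
      have t3 : C.comp (C.comp p (C.comp (C.ext (C.act (tp C w) (1 : C.A T)) o)
          (C.graph i))) q = 0 := by
        rw [ext_comp, comp_ext, hp.self_dual, hc', TheoryData.ext_zero_left, zero_comp]
      rw [add_comp, add_comp, comp_add, comp_add, add_comp, add_comp, t1, t2, t3, add_zero,
        add_zero]
    | zero => rw [TheoryData.act_map_zero]
    | add x y _ _ hx hy => rw [act_map_add, hx, hy, add_zero]
    | smul c x _ hx => rw [act_map_smul, hx, smul_zero]
  rw [← hpz]
  exact h9 z h8

end Pool.Agent.Helper13MD
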